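import Mathlib

set_option autoImplicit false
set_option maxHeartbeats 400000

namespace Pool.Agent.Results.MP_26bbbf_al.NotCrossed

open Filter

/-- `R_H`. -/
def Part {G R : Type} [Ring R] (A : G → AddSubgroup R) (H : Set G) : AddSubgroup R := ⨆ h ∈ H, A h

/-- The graded ring with components `A g` is `G`-controlled. -/
def Controlled {G R : Type} [AddGroup G] [Ring R] (A : G → AddSubgroup R) : Prop :=
  (∀ M : AddSubgroup R, (∀ a ∈ A 0, ∀ x ∈ M, a * x ∈ M ∧ x * a ∈ M) → ∃! H, M = Part A H) ∧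
    ∀ S T : Set G, (∃ f : Part A S ≃+ Part A T, ∀ a ∈ A 0, ∀ x y : Part A S,
      (y.1 = a * x.1 → (f y).1 = a * (f x).1) ∧ (y.1 = x.1 * a → (f y).1 = (f x).1 * a)) → S = T

abbrev X := ℕ → Fin 3
abbrev I (n : ℕ) := Fin n → Fin 3
abbrev Mat (n : ℕ) := Matrix (I n) (I n) ℚ
abbrev E := Module.End ℚ (X → ℚ)

def res (n : ℕ) (x : X) : I n := fun t => x t
def patch (n : ℕ) (j : I n) (x : X) : X := fun t => if h : t < n then j ⟨t, h⟩ else x t

theorem res_patch (n : ℕ) (j : I n) (x : X) : res n (patch n j x) = j := by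
  funext t; simp [res, patch]
theorem patch_patch (n : ℕ) (j k : I n) (x : X) : patch n j (patch n k x) = patch n j x := by
  funext t; by_cases h : t < n <;> simp [patch, h]
theorem patch_res (n : ℕ) (x : X) : patch n (res n x) x = x := by
  funext t; simp [patch, res]

def rho (n : ℕ) : Mat n →+* E where
  toFun a :=
    { toFun := fun f x => ∑ j, a (res n x) j * f (patch n j x)
      map_add' := fun f g => by ext x; simp [mul_add, Finset.sum_add_distrib]
      map_smul' := fun c f => by ext x; simp [Finset.mul_sum, mul_left_comm] }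
  map_one' := by ext f x; simp [Matrix.one_apply, patch_res]
  map_mul' a b := by
    ext f x
    simp only [LinearMap.coe_mk, AddHom.coe_mk, Module.End.mul_apply, Matrix.mul_apply, res_patch,
      patch_patch, Finset.sum_mul, Finset.mul_sum, mul_assoc]
    exact Finset.sum_comm
  map_zero' := by ext f x; simp
  map_add' a b := by ext f x; simp [add_mul, Finset.sum_add_distrib]

theorem rho_apply (n : ℕ) (a : Mat n) (f : X → ℚ) (x : X) :
    rho n a f x = ∑ j, a (res n x) j * f (patch n j x) := rfl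

theorem rho_inj (n : ℕ) : Function.Injective (rho n) :=
  (injective_iff_map_eq_zero _).2 fun a h => by
    ext i j
    have := congrFun (LinearMap.congr_fun h fun y => if res n y = j then 1 else 0) (patch n i 0)
    simpa [rho_apply, res_patch] using this

def up {n : ℕ} (a : Mat n) : Mat (n + 1) :=
  fun i j => if i (Fin.last n) = j (Fin.last n) then a (Fin.init i) (Fin.init j) else 0

theorem rho_up {n : ℕ} (a : Mat n) : rho (n + 1) (up a) = rho n a := by
  ext f x
  rw [rho_apply, rho_apply, ← (Fin.snocEquiv fun _ => Fin 3).sum_comp, Fintype.sum_prod_type,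
    Finset.sum_comm]
  refine Finset.sum_congr rfl fun k _ => ?_
  have h : patch (n + 1) (Fin.snoc k (x n)) x = patch n k x := by
    funext t
    rcases lt_trichotomy t n with h | rfl | h
    · simp [patch, h, h.trans n.lt_succ_self, Fin.snoc]
    · simp [patch, Fin.snoc]
    · simp [patch, h.not_gt, show ¬ t < n + 1 by omega]
  rw [Finset.sum_eq_single (x n) (fun c _ hc => by simp [up, res, Fin.snocEquiv, hc.symm]) (by simp)]
  simp only [up, Fin.snocEquiv, Equiv.coe_fn_mk, Fin.snoc_last, Fin.init_snoc, h]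
  rw [if_pos (by simp [res])]
  rfl

def par {n : ℕ} (i : I n) : ZMod 2 := ∑ t, if i t = 2 then 1 else 0

theorem par_succ {n : ℕ} (i : I (n + 1)) :
    par i = par (Fin.init i) + if i (Fin.last n) = 2 then 1 else 0 := Fin.sum_univ_castSucc _

def Hom (D : Set (ZMod 2)) {n : ℕ} (a : Mat n) : Prop := ∀ i j, par i + par j ∉ D → a i j = 0

theorem hom_up {D : Set (ZMod 2)} {n : ℕ} {a : Mat n} (h : Hom D a) : Hom D (up a) := by
  intro i j hij
  unfold up
  split_ifs with e
  · refine h _ _ ?_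
    rwa [par_succ i, par_succ j, e, add_add_add_comm, CharTwo.add_self_eq_zero, add_zero] at hij
  · rfl

theorem ev {D : Set (ZMod 2)} {T : E} (h : ∃ n, ∃ a : Mat n, Hom D a ∧ rho n a = T) :
    ∀ᶠ m in atTop, ∃ a : Mat m, Hom D a ∧ rho m a = T := by
  obtain ⟨n, h⟩ := h
  refine eventually_atTop.2 ⟨n, fun m hm => ?_⟩
  induction m, hm using Nat.le_induction with
  | base => exact h
  | succ m _ ih => obtain ⟨a, h1, h2⟩ := ih; exact ⟨up a, hom_up h1, (rho_up a).trans h2⟩

theorem hu {n : ℕ} (a : Mat n) : Hom Set.univ a := fun _ _ h => (h trivial).elim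

def R : Subring E where
  carrier := {T | ∃ n, ∃ a : Mat n, Hom Set.univ a ∧ rho n a = T}
  mul_mem' h k := by
    obtain ⟨m, ⟨a, -, rfl⟩, b, -, rfl⟩ := ((ev h).and (ev k)).exists
    exact ⟨m, a * b, hu _, map_mul _ _ _⟩
  one_mem' := ⟨0, 1, hu _, map_one _⟩
  add_mem' h k := by
    obtain ⟨m, ⟨a, -, rfl⟩, b, -, rfl⟩ := ((ev h).and (ev k)).exists
    exact ⟨m, a + b, hu _, map_add _ _ _⟩
  zero_mem' := ⟨0, 0, hu _, map_zero _⟩
  neg_mem' := fun ⟨m, a, _, h⟩ => ⟨m, -a, hu _, h ▸ map_neg _ _⟩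

def r (n : ℕ) : Mat n →+* R := (rho n).codRestrict R fun a => ⟨n, a, hu a, rfl⟩

theorem r_inj (n : ℕ) : Function.Injective (r n) := fun _ _ h => rho_inj n (congrArg Subtype.val h)

theorem ev' {D : Set (ZMod 2)} {T : R} (h : ∃ n, ∃ a : Mat n, Hom D a ∧ r n a = T) :
    ∀ᶠ m in atTop, ∃ a : Mat m, Hom D a ∧ r m a = T := by
  obtain ⟨n, a, h1, rfl⟩ := h
  exact (ev ⟨n, a, h1, rfl⟩).mono fun m ⟨b, h2, h3⟩ => ⟨b, h2, Subtype.ext h3⟩

def B (D : Set (ZMod 2)) : AddSubgroup R where
  carrier := {T | ∃ n, ∃ a : Mat n, Hom D a ∧ r n a = T}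
  add_mem' h k := by
    obtain ⟨m, ⟨a, ha, rfl⟩, b, hb, rfl⟩ := ((ev' h).and (ev' k)).exists
    exact ⟨m, a + b, fun i j e => by simp [ha i j e, hb i j e], map_add _ _ _⟩
  zero_mem' := ⟨0, 0, fun _ _ _ => rfl, map_zero _⟩
  neg_mem' := fun ⟨m, a, ha, h⟩ => ⟨m, -a, fun i j e => by simp [ha i j e], h ▸ map_neg _ _⟩

theorem B_univ (T : R) : T ∈ B Set.univ := by
  obtain ⟨T, n, a, h, rfl⟩ := T
  exact ⟨n, a, h, rfl⟩

theorem sing {D : Set (ZMod 2)} {n : ℕ} {s t : I n} (h : par s + par t ∈ D) (c : ℚ) :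
    r n (Matrix.single s t c) ∈ B D :=
  ⟨n, _, fun i j e => Matrix.single_apply_of_ne s t c i j fun k => e (k.1 ▸ k.2 ▸ h), rfl⟩

theorem gen {D : Set (ZMod 2)} (M : AddSubgroup R) {n : ℕ} {a : Mat n} (ha : Hom D a)
    (h : ∀ s t c, par s + par t ∈ D → r n (Matrix.single s t c) ∈ M) : r n a ∈ M := by
  rw [Matrix.matrix_eq_sum_single a, map_sum]
  refine sum_mem fun s _ => ?_
  rw [map_sum]
  refine sum_mem fun t _ => ?_
  by_cases e : par s + par t ∈ D
  · exact h _ _ _ e
  · rw [ha s t e, Matrix.single_zero, map_zero]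
    exact zero_mem _

theorem part_eq (H : Set (ZMod 2)) : Part (fun d => B {d}) H = B H := by
  refine le_antisymm (iSup₂_le fun d hd T ⟨n, a, ha, e⟩ =>
    ⟨n, a, fun i j k => ha i j fun l => k (l ▸ hd), e⟩) ?_
  rintro - ⟨n, a, ha, rfl⟩
  exact gen _ ha fun s t c h => (le_iSup₂_of_le (f := fun d (_ : d ∈ H) => B {d}) _ h le_rfl)
    (sing (Set.mem_singleton _) c)

theorem exc {n : ℕ} (i : I n) (e : ZMod 2) : ∃ c : Fin 3, par (Fin.snoc i c : I (n + 1)) = e := by
  refine ⟨if par i = e then 0 else 2, ?_⟩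
  rw [par_succ, Fin.init_snoc, Fin.snoc_last]
  generalize par i = p
  decide +revert

theorem bimod (M : AddSubgroup R) (hM : ∀ a ∈ B {0}, ∀ x ∈ M, a * x ∈ M ∧ x * a ∈ M) :
    M = B {d | ∃ n, ∃ a : Mat n, r n a ∈ M ∧ ¬ Hom {d}ᶜ a} := by
  refine le_antisymm (fun T hT => ?_) ?_
  · obtain ⟨n, a, -, rfl⟩ := B_univ T
    refine ⟨n, a, fun i j h => ?_, rfl⟩
    by_contra k
    exact h ⟨n, a, hT, fun l => k (l i j (by simp))⟩
  · rw [← part_eq]
    refine iSup₂_le fun d ⟨n, a, ha, hd⟩ S hS => ?_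
    obtain ⟨m, ⟨b, -, hb⟩, s, hs, rfl⟩ := ((ev' (B_univ (r n a))).and
      ((ev' hS).and (eventually_ge_atTop n))).exists.imp fun m h => And.intro h.1 h.2.1
    obtain ⟨i, j, hij, hne⟩ : ∃ i j, par i + par j = d ∧ b i j ≠ 0 := by
      by_contra! k
      obtain ⟨l, ⟨a', ha', e⟩, hl⟩ := ((ev' ⟨m, b, fun i j h => k i j (by simpa using h), hb⟩ :
        ∀ᶠ l in atTop, ∃ a' : Mat l, Hom {d}ᶜ a' ∧ r l a' = r n a).and (eventually_ge_atTop n)).exists
      clear hb
      induction l, hl using Nat.le_induction with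
      | base => exact hd (r_inj n e ▸ ha')
      | succ l hl ih =>
        obtain ⟨c, -, hc⟩ : ∃ c : Mat l, Hom Set.univ c ∧ rho l c = rho n a := by
          clear ih e
          induction l, hl using Nat.le_induction with
          | base => exact ⟨a, hu _, rfl⟩
          | succ l _ ih =>
            obtain ⟨c, -, hc⟩ := ih 0 fun _ _ _ => rfl
            exact ⟨up c, hu _, (rho_up c).trans hc⟩
        obtain rfl : a' = up c := rho_inj _ ((congrArg Subtype.val e).trans
          ((rho_up c).trans hc).symm)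
        refine ih c (fun i j h => ?_) (Subtype.ext hc)
        simpa [up] using ha' (Fin.snoc i 0) (Fin.snoc j 0) (by simpa [par_succ] using h)
    rw [show r m s = r (m + 1) (up s) from Subtype.ext (rho_up s).symm]
    refine gen _ (hom_up hs) fun u v c h => ?_
    obtain ⟨e, he⟩ := exc i (par u)
    have h1 : par (Fin.snoc j e : I (m + 1)) + par v = 0 := by
      rw [par_succ, Fin.init_snoc, Fin.snoc_last] at he ⊢
      rw [Set.mem_singleton_iff, ← he, ← hij] at h
      linear_combination (exp := 1) h + CharTwo.add_self_eq_zero (par j)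
    have h2 := (hM _ (sing h1 1) _ (hM _ (sing (s := u) (t := Fin.snoc i e)
      (by rw [he]; exact CharTwo.add_self_eq_zero _) (c * (b i j)⁻¹)) _ ha).1).2
    rw [← hb, show r m b = r (m + 1) (up b) from Subtype.ext (rho_up b).symm, ← map_mul, ← map_mul,
      Matrix.single_mul_mul_single] at h2
    simpa [up, hne] using h2

theorem noniso (S T : Set (ZMod 2)) (f : B S → B T) (h0 : ∀ x, f x = 0 → x = 0) (hz : f 0 = 0)
    (hf : ∀ a ∈ B {0}, ∀ x y : B S, (y.1 = a * x.1 → (f y).1 = a * (f x).1) ∧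
      (y.1 = x.1 * a → (f y).1 = (f x).1 * a)) : S ⊆ T := by
  intro d hd
  by_contra hT
  obtain ⟨e, he⟩ := exc (n := 0) 0 d
  obtain ⟨e', he'⟩ := exc (n := 0) 0 0
  have hx : par (Fin.snoc (0 : I 0) e : I 1) + par (Fin.snoc (0 : I 0) e' : I 1) = d := by
    rw [he, he', add_zero]
  obtain ⟨m, ⟨a, ha, e1⟩, b, hb, e2⟩ := ((ev' (sing (D := {d}) hx 1)).and
    (ev' (f ⟨_, sing (hx ▸ hd) 1⟩).2)).exists
  have hb0 : b = 0 := by
    ext i j
    by_cases h : par i + par j = d
    · exact hb i j (h ▸ hT)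
    · have s1 := sing (D := {0}) (CharTwo.add_self_eq_zero (par i)) 1
      have s2 := sing (D := {0}) (CharTwo.add_self_eq_zero (par j)) 1
      have m1 : r m (Matrix.single i i 1 * a) ∈ B S := ⟨m, _, fun u v k => by
        by_cases hu : u = i
        · rw [hu, Matrix.single_mul_apply_same, ha i v fun l => k (by rw [hu, l]; exact hd), mul_zero]
        · exact Matrix.single_mul_apply_of_ne _ _ _ _ _ hu _, rfl⟩
      have k1 := (hf _ s1 ⟨_, sing (hx ▸ hd) 1⟩ ⟨_, m1⟩).1 ((map_mul _ _ _).trans (by rw [e1]))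
      have k2 := (hf _ s2 ⟨_, m1⟩ 0).2 (by
        change 0 = r m _ * r m _
        rw [← map_mul, Matrix.single_mul_mul_single, ha i j h]
        simp)
      rw [hz, k1, ← e2, ← map_mul, ← map_mul, Matrix.single_mul_mul_single] at k2
      have := congrFun (congrFun (r_inj m ((map_zero _).trans k2)) i) j
      simpa using this.symm
  have := congrArg Subtype.val (h0 _ (Subtype.ext (e2.symm.trans (by rw [hb0, map_zero]; rfl))))
  have := congrFun (congrFun (r_inj 1 (this.trans (map_zero _).symm)) (Fin.snoc 0 e)) (Fin.snoc 0 e')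
  simp at this

def chi (d : ZMod 2) : ℚ := if d = 0 then 1 else -1

theorem chi_succ (p : ZMod 2) : chi (p + 1) = -chi p := by
  have : ∀ d : ZMod 2, d = 0 ∨ d = 1 := by decide
  have h : (1 + 1 : ZMod 2) = 0 := rfl
  rcases this p with rfl | rfl <;> simp [chi, h]

theorem chi_par {n : ℕ} (i : I n) : chi (par i) = ∏ t, if i t = 2 then -1 else 1 := by
  induction n with
  | zero => simp [chi, par]
  | succ n ih =>
    rw [par_succ, Fin.prod_univ_castSucc, show (∏ t : Fin n, if i t.castSucc = 2 then -1 else 1) =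
      chi (par (Fin.init i)) from (ih _).symm]
    split_ifs <;> simp [chi_succ]

theorem nounit (u : R) (hu : u ∈ B {1}) : ¬ IsUnit u := by
  rintro ⟨u, rfl⟩
  obtain ⟨m, ⟨a, ha, e1⟩, b, -, e2⟩ := ((ev' hu).and (ev' (B_univ u⁻¹.1))).exists
  have h1 : a * b = 1 := r_inj m (by rw [map_mul, e1, e2, map_one, u.mul_inv])
  have h2 : b * a = 1 := r_inj m (by rw [map_mul, e1, e2, map_one, u.inv_mul])
  let D : Mat m := Matrix.diagonal fun i => chi (par i)
  have h3 : D * a = -(a * D) := by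
    ext i j
    by_cases h : par i + par j = 1
    · simp only [D, Matrix.diagonal_mul, Matrix.neg_apply, Matrix.mul_diagonal]
      rw [show par i = par j + 1 by
        linear_combination (exp := 1) h - CharTwo.add_self_eq_zero (par j) +
          2 * CharTwo.add_self_eq_zero (par j) - 2 * CharTwo.add_self_eq_zero (par j), chi_succ]
      ring
    · simp [D, ha i j h]
  have h4 : D.trace = 1 := by
    simp only [D, Matrix.trace_diagonal, chi_par]
    rw [← Fintype.sum_pow fun c : Fin 3 => if c = 2 then (-1 : ℚ) else 1]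
    simp [Fin.sum_univ_three]
  have h5 : D.trace = -D.trace := by
    conv_lhs => rw [← mul_one D, ← h1, ← mul_assoc, h3, neg_mul, Matrix.trace_neg,
      Matrix.trace_mul_comm, ← mul_assoc, h2, one_mul]
  rw [h4] at h5
  norm_num at h5

theorem result : ∃ (R : Type) (_ : Ring R) (A : ZMod 2 → AddSubgroup R), IsCompl (A 0) (A 1) ∧
    (∀ g h, AddSubgroup.closure {z | ∃ x ∈ A g, ∃ y ∈ A h, z = x * y} = A (g + h)) ∧
    Controlled A ∧ ∃ g, ∀ u ∈ A g, ¬ IsUnit u := by
  have iso : ∀ S T : Set (ZMod 2), (∃ f : Part (fun d => B {d}) S ≃+ Part (fun d => B {d}) T,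
      ∀ a ∈ B {0}, ∀ x y : Part (fun d => B {d}) S, (y.1 = a * x.1 → (f y).1 = a * (f x).1) ∧
        (y.1 = x.1 * a → (f y).1 = (f x).1 * a)) → S = T := by
    intro S T
    rw [part_eq, part_eq]
    rintro ⟨f, hf⟩
    refine (noniso S T f (by simp) (map_zero f) hf).antisymm
      (noniso T S f.symm (by simp) (map_zero _) fun a ha x y => ?_)
    obtain ⟨x, rfl⟩ := f.surjective x
    obtain ⟨m, ⟨p, hp, rfl⟩, q, hq, e⟩ := ((ev' ha).and (ev' x.2)).exists
    have m1 : r m p * x.1 ∈ B S := ⟨m, p * q, fun i j k => Finset.sum_eq_zero fun l _ => by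
      beta_reduce
      by_cases h : par i + par l = 0
      · rw [hq l j (by rwa [← CharTwo.add_eq_zero.1 h]), mul_zero]
      · rw [hp i l h, zero_mul], by rw [map_mul, e]⟩
    have m2 : x.1 * r m p ∈ B S := ⟨m, q * p, fun i j k => Finset.sum_eq_zero fun l _ => by
      beta_reduce
      by_cases h : par l + par j = 0
      · rw [hq i l (by rwa [CharTwo.add_eq_zero.1 h]), zero_mul]
      · rw [hp l j h, mul_zero], by rw [map_mul, e]⟩
    refine ⟨fun h => ?_, fun h => ?_⟩
    · rw [show y = f ⟨_, m1⟩ from Subtype.ext (h.trans ((hf _ ha x ⟨_, m1⟩).1 rfl).symm)]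
      simp
    · rw [show y = f ⟨_, m2⟩ from Subtype.ext (h.trans ((hf _ ha x ⟨_, m2⟩).2 rfl).symm)]
      simp
  refine ⟨R, inferInstance, fun d => B {d}, ⟨disjoint_iff_inf_le.2 fun T ⟨h0, h1⟩ => ?_,
    codisjoint_iff_le_sup.2 fun T _ => ?_⟩, fun g h => le_antisymm ((AddSubgroup.closure_le _).2 ?_) ?_,
    ⟨fun M hM => ⟨_, (bimod M hM).trans (part_eq _).symm, fun H hH => iso _ _ ?_⟩, iso⟩, 1, nounit⟩
  · obtain ⟨m, ⟨a, ha, rfl⟩, b, hb, e⟩ := ((ev' h0).and (ev' h1)).exists
    obtain rfl := r_inj m e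
    rw [show b = 0 from Matrix.ext fun i j => by
      by_cases h : par i + par j = 0
      exacts [hb i j (by simp [h]), ha i j h], map_zero]
    exact zero_mem _
  · obtain ⟨n, a, ha, rfl⟩ := B_univ T
    refine gen _ ha fun s t c _ => ?_
    have : ∀ d : ZMod 2, d = 0 ∨ d = 1 := by decide
    rcases this (par s + par t) with h | h
    exacts [AddSubgroup.mem_sup_left (sing h c), AddSubgroup.mem_sup_right (sing h c)]
  · rintro - ⟨x, hx, y, hy, rfl⟩
    obtain ⟨m, ⟨a, ha, rfl⟩, b, hb, rfl⟩ := ((ev' hx).and (ev' hy)).exists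
    refine ⟨m, a * b, fun i j k => Finset.sum_eq_zero fun l _ => ?_, map_mul _ _ _⟩
    beta_reduce
    by_cases e : par i + par l = g
    · rw [hb l j fun e' => k ?_, mul_zero]
      rw [Set.mem_singleton_iff] at e' ⊢
      linear_combination (exp := 1) e + e' - CharTwo.add_self_eq_zero (par l)
    · rw [ha i l e, zero_mul]
  · rintro - ⟨n, a, ha, rfl⟩
    rw [show r n a = r (n + 1) (up a) from Subtype.ext (rho_up a).symm]
    refine gen _ (hom_up ha) fun s t c e => AddSubgroup.subset_closure ?_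
    obtain ⟨k, hk⟩ := exc (0 : I n) (par s + g)
    refine ⟨_, sing (s := s) (t := Fin.snoc 0 k) ?_ c, _, sing (s := Fin.snoc 0 k) (t := t) ?_ 1, ?_⟩
    · rw [hk, ← add_assoc, CharTwo.add_self_eq_zero, zero_add]
      rfl
    · rw [Set.mem_singleton_iff] at e ⊢
      linear_combination (exp := 1) hk + e + CharTwo.add_self_eq_zero g
    · rw [← map_mul, Matrix.single_mul_single_same, mul_one]
  · rw [← hH, part_eq, ← bimod M hM]
    exact ⟨AddEquiv.refl _, fun _ _ _ _ => ⟨id, id⟩⟩

end Pool.Agent.Results.MP_26bbbf_al.NotCrossed
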